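import Pool.Agent.TH20.OS.Facts
import Pool.Agent.TH20.OS.Poly

/-!
# An orthostack, all of whose faces are simple polygons, without an edge unfolding (Q2)

Let `P` be the square `[0, 5]²` minus four notches of width `1` and depth `2`, one on each side.  The
orthostack `V` is the union of the box `[0, 5]² × [0, 1]` and the prism `P × [1, 3]`.  It has 22
faces, all of them simple polygons (closed discs): the top `P`, the bottom, four side faces with a
notch of width `1` and height `2`, and in each of the four notches a back face, two side faces and
a floor.

`V` has no unfolding along its edges.  The left face `L` of a notch (`2 × 2`) cannot be attached to
the top or to the side face, because it would overlap the other side of the notch of that face.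
The back face `B` and the floor `N` of the notch (`1 × 2`) fit only exactly into the notches, and
if `B` is attached to the top (or `N` to the side face) then `L` cannot be attached to it.  From this
one concludes first that the top is connected with the rest of the surface only if it is attached
to a side face, directly or through `B` and `N`, and then that `L` cannot be attached to anything.

The definitions (solids made of unit cubes, their surfaces, faces, slices, unfoldings along edges)
are in `Pool.Agent.TH20.OS.Defs`.
-/

set_option autoImplicit false

namespace Pool.Agent.Results.MP_306cd6_co.NoEdgeUnfolding

open Pool.Agent.TH20.OS

/-- `V` is an orthostack, all its faces are orthogonal polygons without holes, and it has no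
unfolding along its edges. -/
theorem result : IsOrthostack V ∧ (∀ s : Sq, IsSq V s → IsPolygon (face V s)) ∧
    IsEmpty (EdgeUnfolding V) :=
  ⟨orthostack, fun _ hs => face_polygon hs, no_unfolding⟩

end Pool.Agent.Results.MP_306cd6_co.NoEdgeUnfolding
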